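import Pool.Agent.Helper88_SA.StmtG

/-!
# The characteristic sequence
-/

namespace SA.H34

open Filter Topology Finset SA

noncomputable section

lemma gam_succ (T z : ℝ) (r : ℕ) :
    gam T z (r + 1) = z / (z - 1) ^ 2 - ((r : ℝ) + 1) * T + z * gam T z r := rfl

section
variable {T z : ℝ} (hT : 0 < T) (hz : 0 < z)
include hT hz

lemma gam_dich (r : ℕ) : (0 ≤ gam T z r ∧ (r = 0 ∨ 0 < gam T z r)) ∨
    (gam T z r ≤ 0 ∧ z / (z - 1) ^ 2 - ((r : ℝ) + 1) * T < 0) := by
  induction r with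
  | zero => exact Or.inl ⟨le_of_eq rfl, Or.inl rfl⟩
  | succ r ih =>
    rw [gam_succ]
    push_cast
    rcases ih with ⟨h1, -⟩ | ⟨h1, h2⟩
    · by_cases h : 0 < z / (z - 1) ^ 2 - ((r : ℝ) + 1) * T + z * gam T z r
      · exact Or.inl ⟨h.le, Or.inr h⟩
      · right
        have h3 := mul_nonneg hz.le h1
        exact ⟨not_lt.1 h, by nlinarith [not_lt.1 h]⟩
    · right
      have h3 : z * gam T z r ≤ 0 := mul_nonpos_of_nonneg_of_nonpos hz.le h1
      exact ⟨by linarith, by linarith⟩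

lemma gam_neg (r : ℕ) (h1 : gam T z r ≤ 0) (h2 : z / (z - 1) ^ 2 - ((r : ℝ) + 1) * T < 0) (k : ℕ) :
    gam T z (r + 1 + k) < 0 ∧ z / (z - 1) ^ 2 - (((r + 1 + k : ℕ) : ℝ) + 1) * T < 0 := by
  induction k with
  | zero =>
    simp only [add_zero]
    rw [gam_succ]
    have h3 : z * gam T z r ≤ 0 := mul_nonpos_of_nonneg_of_nonpos hz.le h1
    push_cast
    exact ⟨by linarith, by linarith⟩
  | succ k ih =>
    rw [← add_assoc, gam_succ]
    obtain ⟨a, b⟩ := ih
    have h3 : z * gam T z (r + 1 + k) < 0 := mul_neg_of_pos_of_neg hz a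
    push_cast at b ⊢
    exact ⟨by linarith, by linarith⟩

end

theorem gamPos : GamPosStmt := by
  intro T z hT hz hz1 h56 r hr1 hr55
  rcases gam_dich hT hz r with ⟨-, h | h⟩ | ⟨h1, h2⟩
  · omega
  · exact h
  · exfalso
    have := (gam_neg hT hz r h1 h2 (55 - r)).1
    rw [show r + 1 + (55 - r) = 56 by omega, h56] at this
    exact lt_irrefl _ this

theorem gamGain : GamGainStmt := by
  intro T z hT hz hz1 h56 r hr
  induction r with
  | zero => rfl
  | succ r ih =>
    have h1 := ih (by omega)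
    have h2 : 0 ≤ gam T z (r + 1) := by
      rcases Nat.lt_or_ge (r + 1) 56 with h | h
      · exact (gamPos T z hT hz hz1 h56 (r + 1) (by omega) (by omega)).le
      · rw [show r + 1 = 56 by omega, h56]
    have h3 : gain T z (r + 1) = max 0 (z / (1 - z) ^ 2 - ((r : ℝ) + 1) * T + z * gain T z r) := rfl
    rw [h3, h1, show (1 - z) ^ 2 = (z - 1) ^ 2 by ring, ← gam_succ, max_eq_right h2]

/-- `(z - 1)^2 gam` -/
def hh (T z : ℝ) : ℕ → ℝ
  | 0 => 0
  | r + 1 => z - ((r : ℝ) + 1) * T * (z - 1) ^ 2 + z * hh T z r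

lemma hh_eq (T z : ℝ) (hz : z - 1 ≠ 0) (r : ℕ) : hh T z r = (z - 1) ^ 2 * gam T z r := by
  induction r with
  | zero => simp [hh, gam]
  | succ r ih =>
    rw [gam_succ, hh, ih]
    field_simp

lemma hh_cont (T : ℝ) (r : ℕ) : Continuous fun z => hh T z r := by
  induction r with
  | zero => exact continuous_const
  | succ r ih =>
    simp only [hh]
    fun_prop

lemma hh_one (T : ℝ) (r : ℕ) : hh T 1 r = r := by
  induction r with
  | zero => simp [hh]
  | succ r ih =>
    simp only [hh, ih]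
    push_cast
    ring

theorem zex : ZexStmt := by
  intro T hT
  have h0 : hh T 0 56 = -(56 * T) := by
    simp only [hh]
    norm_num
  have h1 : hh T 1 56 = 56 := by
    rw [hh_one]
    norm_num
  have h2 : (0 : ℝ) ∈ Set.Ioo (hh T 0 56) (hh T 1 56) := by
    rw [h0, h1]
    exact ⟨by linarith, by norm_num⟩
  obtain ⟨z, hz, hz2⟩ := intermediate_value_Ioo (zero_le_one' ℝ) (hh_cont T 56).continuousOn h2
  have hz3 : z - 1 ≠ 0 := by
    have := hz.2
    intro h
    linarith
  refine ⟨z, hz.1, hz.2, ?_⟩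
  have h4 := hh_eq T z hz3 56
  simp only at hz2
  rw [hz2] at h4
  rcases mul_eq_zero.1 h4.symm with h | h
  · exact absurd h (pow_ne_zero 2 hz3)
  · exact h

end

end SA.H34
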