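import Pool.Agent.Helper88_SA.StmtG

/-!
# Potential inequality and equality, Abel summation
-/

namespace SA.H34

open Filter Topology Finset SA

noncomputable section

section
variable {mu sg V : ℕ → ℕ → ℝ} {S y : ℕ → ℝ}

lemma mu_nonneg (hF : IsFlow mu sg) (n r : ℕ) : 0 ≤ mu n r :=
  (hF.sg_nonneg n r).trans (hF.sg_le n r)

lemma sg_top (hF : IsFlow mu sg) (n r : ℕ) (hr : 56 < r) : sg n r = 0 :=
  le_antisymm ((hF.sg_le n r).trans_eq (hF.top n r hr)) (hF.sg_nonneg n r)

/-- one step: masses after the period -/
lemma shift (hF : IsFlow mu sg) (hV : ∀ n, V n 0 = 0) (n : ℕ) :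
    ∑ r ∈ range 57, ((mu n r - sg n r) * V (n + 1) r + sg n r * V (n + 1) (r - 1)) =
      ∑ r ∈ range 57, mu (n + 1) r * V (n + 1) r := by
  have h1 : ∑ r ∈ range 57, mu (n + 1) r * V (n + 1) r =
      ∑ r ∈ range 57, (mu n r - sg n r) * V (n + 1) r +
        ∑ r ∈ range 57, sg n (r + 1) * V (n + 1) r := by
    rw [← sum_add_distrib]
    refine sum_congr rfl fun r _ => ?_
    rw [hF.step]
    ring
  have h2 : ∑ r ∈ range 57, sg n (r + 1) * V (n + 1) r =
      ∑ r ∈ range 57, sg n r * V (n + 1) (r - 1) := by
    rw [sum_range_succ, sum_range_succ' (fun r => sg n r * V (n + 1) (r - 1))]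
    rw [sg_top hF n 57 (by norm_num), hF.sg_zero]
    simp
  rw [h1, h2, ← sum_add_distrib]

lemma one_step (hF : IsFlow mu sg) (hV : ∀ n, V n 0 = 0) (n : ℕ) :
    S n * fR mu n + y n * fE sg n + ∑ r ∈ range 57, mu (n + 1) r * V (n + 1) r -
      ∑ r ∈ range 57, mu n r * V n r =
    ∑ r ∈ range 57, ((mu n r - sg n r) * (r * S n + V (n + 1) r - V n r) +
      sg n r * (r * S n + r * y n + V (n + 1) (r - 1) - V n r)) := by
  rw [← shift hF hV, fR, fE, mul_sum, mul_sum, ← sum_add_distrib, ← sum_add_distrib,
    ← sum_sub_distrib]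
  exact sum_congr rfl fun r _ => by ring

end

/-- POT -/
theorem pot : PotStmt := by
  intro mu sg V S y a b hF hab hV h1 h2
  induction b, hab using Nat.le_induction with
  | base => simp
  | succ b hab ih =>
    have ih' := ih (fun n r ha hb => h1 n r ha (by omega)) (fun n r ha hb => h2 n r ha (by omega))
    rw [sum_Ico_succ_top hab]
    have h3 := one_step (S := S) (y := y) hF hV b
    have h4 : 0 ≤ ∑ r ∈ range 57, ((mu b r - sg b r) * (r * S b + V (b + 1) r - V b r) +
        sg b r * (r * S b + r * y b + V (b + 1) (r - 1) - V b r)) := by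
      refine sum_nonneg fun r hr => ?_
      rcases Nat.eq_zero_or_pos r with rfl | hr0
      · simp [hV]
      · have hr56 : r ≤ 56 := by
          have := mem_range.1 hr
          omega
        have a1 := h1 b r hab (Nat.lt_succ_self b) hr0 hr56
        have a2 := h2 b r hab (Nat.lt_succ_self b) hr0 hr56
        exact add_nonneg (mul_nonneg (sub_nonneg.2 (hF.sg_le b r)) (by linarith))
          (mul_nonneg (hF.sg_nonneg b r) (by linarith))
    linarith

/-- POTEQ -/
theorem poteq : PotEqStmt := by
  intro mu sg V S y a b hF hab hV h1 h2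
  induction b, hab using Nat.le_induction with
  | base => simp
  | succ b hab ih =>
    have ih' := ih (fun n r ha hb => h1 n r ha (by omega)) (fun n r ha hb => h2 n r ha (by omega))
    rw [sum_Ico_succ_top hab]
    have h3 := one_step (S := S) (y := y) hF hV b
    have h4 : ∑ r ∈ range 57, ((mu b r - sg b r) * (r * S b + V (b + 1) r - V b r) +
        sg b r * (r * S b + r * y b + V (b + 1) (r - 1) - V b r)) = 0 := by
      refine sum_eq_zero fun r hr => ?_
      rcases Nat.eq_zero_or_pos r with rfl | hr0
      · simp [hV]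
      · have hr56 : r ≤ 56 := by
          have := mem_range.1 hr
          omega
        rw [h1 b r hab (Nat.lt_succ_self b) hr0 hr56, h2 b r hab (Nat.lt_succ_self b) hr0 hr56,
          add_zero]
    linarith

/-- ABEL -/
theorem abel : AbelStmt := by
  intro T P S mu sg N h
  induction N with
  | zero => simp
  | succ N ih =>
    have ih' := ih fun n hn => h n (by omega)
    rw [sum_range_succ, sum_range_succ, sum_range_succ _ N, ih']
    have h1 := h N (Nat.lt_succ_self N)
    have h2 : fC mu N = ∑ j ∈ range N, fR mu j + fR mu N := by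
      rw [fC, sum_range_succ]
    rw [h2, h1]
    ring

end

end SA.H34
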