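import Pool.Agent.Helper34_SA.Gam
import Pool.Agent.Helper34_SA.Pot

/-!
# RATIO: the ratio of an eventually geometric hider strategy is a root
-/

namespace SA.H34

open Filter Topology Finset SA

noncomputable section

/-- value of a search with `r` searches left, relative to waiting for ever -/
def Gr (T z : ℝ) (r : ℕ) : ℝ := z / (1 - z) ^ 2 - (r : ℝ) * T + z * gain T z (r - 1)

lemma gain_nonneg (T z : ℝ) (r : ℕ) : 0 ≤ gain T z r := by
  cases r with
  | zero => exact le_rfl
  | succ r => exact le_max_left _ _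

lemma gain_eq (T z : ℝ) (r : ℕ) (hr : 1 ≤ r) : gain T z r = max 0 (Gr T z r) := by
  obtain ⟨k, rfl⟩ : ∃ k, r = k + 1 := ⟨r - 1, by omega⟩
  simp [gain, Gr]

lemma Gr_le (T z : ℝ) (r : ℕ) (hr : 1 ≤ r) : Gr T z r ≤ gain T z r := by
  rw [gain_eq T z r hr]
  exact le_max_right _ _

/-- the loss of one step -/
def Ls (T z : ℝ) (mu sg : ℕ → ℕ → ℝ) (n : ℕ) : ℝ :=
  ∑ r ∈ range 57, ((mu n r - sg n r) * ((1 - z) * gain T z r) +
    sg n r * (gain T z r - Gr T z r))

section
variable {T z : ℝ} {mu sg : ℕ → ℕ → ℝ}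

lemma Ls_term_nonneg (hF : IsFlow mu sg) (hz1 : z < 1) (n r : ℕ) :
    0 ≤ (mu n r - sg n r) * ((1 - z) * gain T z r) ∧
      0 ≤ sg n r * (gain T z r - Gr T z r) := by
  constructor
  · exact mul_nonneg (sub_nonneg.2 (hF.sg_le n r))
      (mul_nonneg (by linarith) (gain_nonneg T z r))
  · rcases Nat.eq_zero_or_pos r with rfl | hr
    · rw [hF.sg_zero, zero_mul]
    · exact mul_nonneg (hF.sg_nonneg n r) (sub_nonneg.2 (Gr_le T z r hr))

lemma Ls_nonneg (hF : IsFlow mu sg) (hz1 : z < 1) (n : ℕ) : 0 ≤ Ls T z mu sg n :=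
  sum_nonneg fun r _ => add_nonneg (Ls_term_nonneg hF hz1 n r).1 (Ls_term_nonneg hF hz1 n r).2

lemma fR_succ (hF : IsFlow mu sg) (n : ℕ) :
    fR mu (n + 1) = fR mu n - ∑ r ∈ range 57, sg n r := by
  have h := shift (V := fun _ r => (r : ℝ)) hF (fun _ => by simp) n
  have h1 : fR mu (n + 1) = ∑ r ∈ range 57, mu (n + 1) r * (r : ℝ) :=
    sum_congr rfl fun r _ => mul_comm _ _
  rw [h1, ← h, fR, ← sum_sub_distrib]
  refine sum_congr rfl fun r _ => ?_
  rcases Nat.eq_zero_or_pos r with rfl | hr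
  · rw [hF.sg_zero]
    simp
  · have : ((r - 1 : ℕ) : ℝ) = (r : ℝ) - 1 := by
      rw [Nat.cast_sub hr]
      simp
    rw [this]
    ring

lemma fR_nonneg (hF : IsFlow mu sg) (n : ℕ) : 0 ≤ fR mu n :=
  sum_nonneg fun r _ => mul_nonneg (Nat.cast_nonneg r) (mu_nonneg hF n r)

lemma fE_nonneg (hF : IsFlow mu sg) (n : ℕ) : 0 ≤ fE sg n :=
  sum_nonneg fun r _ => mul_nonneg (Nat.cast_nonneg r) (hF.sg_nonneg n r)

lemma fR_zero (hF : IsFlow mu sg) : fR mu 0 = 56 := by
  rw [fR, sum_eq_single 56]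
  · rw [hF.init]
    norm_num
  · intro r _ hr
    rw [hF.init, if_neg hr, mul_zero]
  · intro h
    exact absurd (mem_range.2 (by norm_num)) h

lemma fR_le (hF : IsFlow mu sg) (n : ℕ) : fR mu n ≤ 56 := by
  induction n with
  | zero => exact (fR_zero hF).le
  | succ n ih =>
    rw [fR_succ hF]
    have : 0 ≤ ∑ r ∈ range 57, sg n r := sum_nonneg fun r _ => hF.sg_nonneg n r
    linarith

lemma psi_step (hF : IsFlow mu sg) (hz1 : z < 1) (n : ℕ) :
    Psi T z mu n = z * Psi T z mu (n + 1) + (56 * T - (fC mu n + T * fE sg n)) +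
      Ls T z mu sg n := by
  have hz : (1 - z) ≠ 0 := by
    intro h
    linarith
  have hG := shift (V := fun _ r => gain T z r) hF (fun _ => rfl) n
  have hC : fC mu n = ∑ j ∈ range n, fR mu j + fR mu n := by
    rw [fC, sum_range_succ]
  have hL : Ls T z mu sg n = ∑ r ∈ range 57, mu n r * gain T z r -
      z * ∑ r ∈ range 57, mu (n + 1) r * gain T z r -
      z / (1 - z) ^ 2 * ∑ r ∈ range 57, sg n r + T * fE sg n := by
    rw [← hG, fE, mul_sum, mul_sum, mul_sum, ← sum_sub_distrib, ← sum_sub_distrib,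
      ← sum_add_distrib, Ls]
    refine sum_congr rfl fun r _ => ?_
    rw [Gr]
    ring
  rw [Psi, Psi, hL, hC, sum_range_succ _ n, fR_succ hF]
  field_simp
  ring

lemma psi_lower (hF : IsFlow mu sg) (hT : 0 < T) (hz1 : z < 1)
    (hfe : ∀ N, FeasibleTo T mu sg N) (n : ℕ) : -(56 / (1 - z) ^ 2) ≤ Psi T z mu n := by
  have h1 : ∑ j ∈ range n, fR mu j ≤ 56 * T := by
    cases n with
    | zero => simp; positivity
    | succ n =>
      have h := hfe (n + 1) n (Nat.lt_succ_self n)
      have h2 := mul_nonneg hT.le (fE_nonneg hF n)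
      have h3 : fC mu n = ∑ j ∈ range (n + 1), fR mu j := rfl
      linarith
  have h2 : 0 ≤ (56 * T - ∑ j ∈ range n, fR mu j) / (1 - z) :=
    div_nonneg (by linarith) (by linarith)
  have h3 : fR mu n / (1 - z) ^ 2 ≤ 56 / (1 - z) ^ 2 :=
    div_le_div_of_nonneg_right (fR_le hF n) (sq_nonneg _)
  have h4 : 0 ≤ ∑ r ∈ range 57, mu n r * gain T z r :=
    sum_nonneg fun r _ => mul_nonneg (mu_nonneg hF n r) (gain_nonneg T z r)
  rw [Psi]
  linarith

/-- the potential of a feasible flow is nonnegative -/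
lemma psi_nonneg (hF : IsFlow mu sg) (hT : 0 < T) (hz : 0 < z) (hz1 : z < 1)
    (hfe : ∀ N, FeasibleTo T mu sg N) (n : ℕ) : 0 ≤ Psi T z mu n := by
  have h1 : ∀ M n, -(56 / (1 - z) ^ 2) * z ^ M ≤ Psi T z mu n := by
    intro M
    induction M with
    | zero =>
      intro n
      rw [pow_zero, mul_one]
      exact psi_lower hF hT hz1 hfe n
    | succ M ih =>
      intro n
      have h2 := ih (n + 1)
      have h3 := hfe (n + 1) n (Nat.lt_succ_self n)
      have h4 := Ls_nonneg (T := T) hF hz1 n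
      have h5 := mul_le_mul_of_nonneg_left h2 hz.le
      rw [psi_step hF hz1 n]
      have h6 : z * (-(56 / (1 - z) ^ 2) * z ^ M) = -(56 / (1 - z) ^ 2) * z ^ (M + 1) := by ring
      linarith
  have h2 : Tendsto (fun M : ℕ => -(56 / (1 - z) ^ 2) * z ^ M) atTop
      (𝓝 (-(56 / (1 - z) ^ 2) * 0)) :=
    (tendsto_pow_atTop_nhds_zero_of_lt_one hz.le hz1).const_mul _
  rw [mul_zero] at h2
  exact le_of_tendsto h2 (Eventually.of_forall fun M => h1 M n)

/-- both slacks vanish -/
lemma slack_zero (hF : IsFlow mu sg) (hT : 0 < T) (hz : 0 < z) (hz1 : z < 1)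
    (hfe : ∀ N, FeasibleTo T mu sg N) (n : ℕ) (hp : Psi T z mu n ≤ 0) :
    fC mu n + T * fE sg n = 56 * T ∧ Ls T z mu sg n = 0 := by
  have h1 := mul_nonneg hz.le (psi_nonneg hF hT hz hz1 hfe (n + 1))
  have h3 := hfe (n + 1) n (Nat.lt_succ_self n)
  have h4 := Ls_nonneg (T := T) hF hz1 n
  rw [psi_step hF hz1 n] at hp
  constructor <;> linarith

lemma Ls_zero (hF : IsFlow mu sg) (hz1 : z < 1) (n : ℕ) (h : Ls T z mu sg n = 0) (r : ℕ)
    (hr : r ≤ 56) : (mu n r - sg n r) * ((1 - z) * gain T z r) = 0 ∧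
      sg n r * (gain T z r - Gr T z r) = 0 := by
  have h1 := (sum_eq_zero_iff_of_nonneg (fun r _ => add_nonneg
    (Ls_term_nonneg (T := T) (z := z) hF hz1 n r).1 (Ls_term_nonneg hF hz1 n r).2)).1 h r
    (mem_range.2 (by omega))
  have h2 := (Ls_term_nonneg (T := T) (z := z) hF hz1 n r).1
  have h3 := (Ls_term_nonneg (T := T) (z := z) hF hz1 n r).2
  constructor <;> linarith

lemma gain_zero_up (hT : 0 < T) (hz : 0 < z) (r k : ℕ) (hr : 1 ≤ r) (h : Gr T z r ≤ 0) :
    Gr T z (r + k + 1) < 0 := by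
  have h0 : z / (1 - z) ^ 2 ≤ (r : ℝ) * T := by
    have h3 := mul_nonneg hz.le (gain_nonneg T z (r - 1))
    rw [Gr] at h
    linarith
  have hkT : 0 ≤ (k : ℝ) * T := by positivity
  induction k with
  | zero =>
    have h2 : gain T z r = 0 := by
      rw [gain_eq T z r hr, max_eq_left h]
    rw [Gr, show r + 0 + 1 - 1 = r by omega, h2]
    push_cast
    nlinarith
  | succ k ih =>
    have h1 := ih (by positivity)
    have h2 : gain T z (r + k + 1) = 0 := by
      rw [gain_eq T z (r + k + 1) (by omega), max_eq_left h1.le]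
    rw [Gr, show r + (k + 1) + 1 - 1 = r + k + 1 by omega, h2]
    push_cast at hkT ⊢
    nlinarith

lemma gain_pos (hT : 0 < T) (hz : 0 < z) (h56 : 0 ≤ Gr T z 56) (r : ℕ) (hr : 1 ≤ r)
    (hr2 : r ≤ 55) : 0 < Gr T z r := by
  by_contra h
  have := gain_zero_up hT hz r (55 - r) hr (not_lt.1 h)
  rw [show r + (55 - r) + 1 = 56 by omega] at this
  exact absurd h56 (not_le.2 this)

lemma gam_eq_gain (hT : 0 < T) (hz : 0 < z) (h56 : 0 ≤ Gr T z 56) (r : ℕ) (hr : r ≤ 56) :
    gam T z r = gain T z r ∧ (1 ≤ r → gam T z r = Gr T z r) := by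
  induction r with
  | zero => exact ⟨rfl, fun h => absurd h (by norm_num)⟩
  | succ r ih =>
    have h1 := (ih (by omega)).1
    have h2 : gam T z (r + 1) = Gr T z (r + 1) := by
      rw [gam_succ, h1, Gr, show r + 1 - 1 = r by omega, show (z - 1) ^ 2 = (1 - z) ^ 2 by ring]
      push_cast
      ring
    have h3 : 0 ≤ Gr T z (r + 1) := by
      rcases Nat.lt_or_ge (r + 1) 56 with h | h
      · exact (gain_pos hT hz h56 (r + 1) (by omega) (by omega)).le
      · rwa [show r + 1 = 56 by omega]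
    refine ⟨?_, fun _ => h2⟩
    rw [h2, gain_eq T z (r + 1) (by omega), max_eq_right h3]

end

theorem ratio : PsiStmt → FlowQStmt → GreedyFlowStmt → RatioStmt := by
  intro hPsi hFQ hGF T p q x z hT1 hE hG hS
  have hT : 0 < T := by linarith
  obtain ⟨hz, hz1, hP⟩ := hPsi T p q x z hE hG
  -- step 1: the greedy flow
  obtain ⟨hF, -, -, hfe⟩ := hGF T hT1 hS
  have h56 : 0 ≤ Gr T z 56 := by
    obtain ⟨n, hn, hB⟩ := hS.start_inf x
    have hfe' : ∀ N, FeasibleTo T (gmu T) (gsg T) N := fun N n _ => (hfe n).le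
    have h1 := slack_zero hF hT hz hz1 hfe' n (hP _ _ n hF hn (hfe' n))
    have h2 := (Ls_zero hF hz1 n h1.2 56 le_rfl).2
    have h3 : 0 < gsg T n 56 := by
      rw [gsg, if_neg (by norm_num), if_neg (by norm_num), if_pos rfl, max_eq_left hB.le]
      linarith
    rcases mul_eq_zero.1 h2 with h | h
    · exact absurd h h3.ne'
    · have := gain_nonneg T z 56
      linarith
  have hgam := gam_eq_gain hT hz h56 56 le_rfl
  rw [hgam.2 (by norm_num)]
  -- step 3: the flow of q
  by_contra hne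
  have hpos : 0 < Gr T z 56 := lt_of_le_of_ne h56 (Ne.symm hne)
  have hgp : ∀ r, 1 ≤ r → r ≤ 56 → 0 < gain T z r := by
    intro r h1 h2
    rw [gain_eq T z r h1]
    rcases Nat.lt_or_ge r 56 with h | h
    · exact lt_max_of_lt_right (gain_pos hT hz h56 r h1 (by omega))
    · rw [show r = 56 by omega]
      exact lt_max_of_lt_right hpos
  obtain ⟨mu, sg, hF', hlim, hval⟩ := hFQ q hE.q_nonneg hE.q_supp hE.q_sum
  have hfq : ∀ n, fC mu n + T * fE sg n ≤ 56 * T := by
    intro n
    rw [hval T hT n]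
    have := hE.hider (n + 1) (by omega)
    linarith
  have hfe' : ∀ N, FeasibleTo T mu sg N := fun N n _ => hfq n
  have hsl : ∀ n, x ≤ n → fC mu n + T * fE sg n = 56 * T ∧ Ls T z mu sg n = 0 := fun n hn =>
    slack_zero hF' hT hz hz1 hfe' n (hP _ _ n hF' hn (hfe' n))
  have hw : ∀ n, x ≤ n → ∀ r, 1 ≤ r → r ≤ 56 → mu n r = sg n r := by
    intro n hn r h1 h2
    have h3 := (Ls_zero hF' hz1 n (hsl n hn).2 r h2).1
    have h4 : (1 - z) * gain T z r ≠ 0 := (mul_pos (by linarith) (hgp r h1 h2)).ne'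
    have h5 := (mul_eq_zero.1 h3).resolve_right h4
    linarith
  have hmz : ∀ k n r, x + k ≤ n → 57 ≤ r + k → 1 ≤ r → mu n r = 0 := by
    intro k
    induction k with
    | zero =>
      intro n r _ hr _
      exact hF'.top n r (by omega)
    | succ k ih =>
      intro n r hn hr hr1
      obtain ⟨m, rfl⟩ : ∃ m, n = m + 1 := ⟨n - 1, by omega⟩
      have h1 := ih m (r + 1) (by omega) (by omega) (by omega)
      have h2 : sg m (r + 1) = 0 :=
        le_antisymm ((hF'.sg_le m (r + 1)).trans_eq h1) (hF'.sg_nonneg m _)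
      rw [hF'.step, h2, add_zero]
      rcases Nat.lt_or_ge 56 r with h | h
      · rw [hF'.top m r h, sg_top hF' m r h, sub_zero]
      · rw [hw m (by omega) r hr1 h, sub_self]
  have hev : ∀ n, x + 57 ≤ n → fR mu n = 0 := by
    intro n hn
    refine sum_eq_zero fun r _ => ?_
    rcases Nat.eq_zero_or_pos r with rfl | hr
    · simp
    · rw [hmz 57 n r hn (by omega) hr, mul_zero]
  -- the last state with positive fR
  classical
  have hex : ∃ N, ∀ n, N ≤ n → fR mu n = 0 := ⟨x + 57, hev⟩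
  have hN := Nat.find_spec hex
  have hN0 : Nat.find hex ≠ 0 := by
    intro h
    have := hN 0 (by omega)
    rw [fR_zero hF'] at this
    norm_num at this
  obtain ⟨m, hm⟩ : ∃ m, Nat.find hex = m + 1 := ⟨Nat.find hex - 1, by omega⟩
  have hm1 : ¬ ∀ n, m ≤ n → fR mu n = 0 := Nat.find_min hex (by omega)
  have hm2 : 0 < fR mu m := by
    refine lt_of_le_of_ne (fR_nonneg hF' m) fun h => hm1 fun n hn => ?_
    rcases Nat.eq_or_lt_of_le hn with rfl | h'
    · exact h.symm
    · exact hN n (by omega)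
  -- everything searches at m
  have h1 : ∀ r, 1 ≤ r → mu (m + 1) r = 0 := by
    intro r hr
    rcases Nat.lt_or_ge 56 r with h | h
    · exact hF'.top _ _ h
    · have h2 : fR mu (m + 1) = 0 := hN (m + 1) (by omega)
      have h3 := (sum_eq_zero_iff_of_nonneg (fun r _ => mul_nonneg (Nat.cast_nonneg r)
        (mu_nonneg hF' (m + 1) r))).1 h2 r (mem_range.2 (by omega))
      rcases mul_eq_zero.1 h3 with h4 | h4
      · have : r = 0 := by exact_mod_cast h4
        omega
      · exact h4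
  have h2 : fE sg m = fR mu m := by
    refine sum_congr rfl fun r _ => ?_
    rcases Nat.eq_zero_or_pos r with rfl | hr
    · simp
    · have h3 := h1 r hr
      rw [hF'.step] at h3
      have h4 := hF'.sg_nonneg m (r + 1)
      have h5 := hF'.sg_le m r
      rw [show sg m r = mu m r by linarith]
  have h3 : fC mu m = 56 * T := by
    have h4 := (hsl (m + 1 + x) (by omega)).1
    have h5 : fR mu (m + 1 + x) = 0 := hN _ (by omega)
    have h6 : fE sg (m + 1 + x) = 0 := by
      refine le_antisymm ?_ (fE_nonneg hF' _)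
      rw [← h5]
      exact sum_le_sum fun r _ => mul_le_mul_of_nonneg_left (hF'.sg_le _ r) (Nat.cast_nonneg r)
    have h7 : fC mu (m + 1 + x) = fC mu m := by
      rw [fC, fC, ← sum_range_add_sum_Ico (fun j => fR mu j) (show m + 1 ≤ m + 1 + x + 1 by omega)]
      rw [sum_eq_zero (s := Ico (m + 1) (m + 1 + x + 1)), add_zero]
      intro j hj
      exact hN j (by have := (mem_Ico.1 hj).1; omega)
    rw [h6, mul_zero, add_zero, h7] at h4
    exact h4
  have h4 := hfq m
  rw [h2, h3] at h4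
  have h5 := mul_pos hT hm2
  linarith

end

end SA.H34
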