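import Pool.Agent.Helper88_SA.StmtG

/-!
# Cost-to-go from a hider strategy
-/

namespace SA.H34

open Filter Topology Finset SA

noncomputable section

/-- cost of the future search periods `s` (all `> n`) from state `n` on -/
def cost (T : ℝ) (p S : ℕ → ℝ) (n : ℕ) (s : Finset ℕ) : ℝ :=
  ∑ l ∈ s, (∑ j ∈ Ico n l, S j + T * p l * ((s.filter (fun l' => l ≤ l')).card : ℝ))

def adm (n r : ℕ) (s : Finset ℕ) : Prop := s.card = r ∧ ∀ l ∈ s, n < l

def VV (T : ℝ) (p S : ℕ → ℝ) (n r : ℕ) : ℝ :=
  sInf {c | ∃ s, adm n r s ∧ c = cost T p S n s}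

lemma adm_exists (n r : ℕ) : adm n r (Ioc n (n + r)) := by
  refine ⟨by simp, ?_⟩
  intro l hl
  exact (mem_Ioc.1 hl).1

section
variable {T : ℝ} {p S : ℕ → ℝ} (hT : 0 ≤ T) (hp : ∀ i, 0 ≤ p i) (hS : ∀ i, 0 ≤ S i)
include hT hp hS

lemma cost_nonneg (n : ℕ) (s : Finset ℕ) : 0 ≤ cost T p S n s := by
  refine sum_nonneg fun l _ => add_nonneg (sum_nonneg fun j _ => hS j) ?_
  exact mul_nonneg (mul_nonneg hT (hp l)) (Nat.cast_nonneg _)

lemma VV_le (n r : ℕ) (s : Finset ℕ) (h : adm n r s) : VV T p S n r ≤ cost T p S n s := by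
  refine csInf_le ⟨0, ?_⟩ ⟨s, h, rfl⟩
  rintro c ⟨s', -, rfl⟩
  exact cost_nonneg hT hp hS n s'

omit hT hp hS in
lemma le_VV (n r : ℕ) (b : ℝ) (h : ∀ s, adm n r s → b ≤ cost T p S n s) : b ≤ VV T p S n r := by
  refine le_csInf ⟨_, _, adm_exists n r, rfl⟩ ?_
  rintro c ⟨s, hs, rfl⟩
  exact h s hs

lemma VV_nonneg (n r : ℕ) : 0 ≤ VV T p S n r :=
  le_VV n r 0 fun s _ => cost_nonneg hT hp hS n s

lemma VV_zero (n : ℕ) : VV T p S n 0 = 0 := by
  refine le_antisymm ?_ (VV_nonneg hT hp hS n 0)
  have := VV_le hT hp hS n 0 ∅ ⟨by simp, by simp⟩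
  simpa [cost] using this

omit hT hp hS in
lemma cost_step (n : ℕ) (s : Finset ℕ) (h : ∀ l ∈ s, n < l) :
    cost T p S n s = s.card * S n + cost T p S (n + 1) s := by
  simp only [cost]
  rw [← nsmul_eq_mul, ← sum_const, ← sum_add_distrib]
  refine sum_congr rfl fun l hl => ?_
  rw [sum_eq_sum_Ico_succ_bot (h l hl)]
  ring

omit hT hp hS in
lemma cost_insert (n : ℕ) (s : Finset ℕ) (h : ∀ l ∈ s, n + 1 < l) :
    cost T p S n (insert (n + 1) s) =
      ((s.card : ℝ) + 1) * S n + ((s.card : ℝ) + 1) * (T * p (n + 1)) + cost T p S (n + 1) s := by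
  have hn : n + 1 ∉ s := fun hc => lt_irrefl _ (h _ hc)
  have h1 : cost T p S n s = s.card * S n + cost T p S (n + 1) s :=
    cost_step n s fun l hl => by have := h l hl; omega
  have h2 : cost T p S n (insert (n + 1) s) =
      (∑ j ∈ Ico n (n + 1), S j + T * p (n + 1) *
        (((insert (n + 1) s).filter (fun l' => n + 1 ≤ l')).card : ℝ)) +
      ∑ l ∈ s, (∑ j ∈ Ico n l, S j + T * p l *
        (((insert (n + 1) s).filter (fun l' => l ≤ l')).card : ℝ)) := by
    simp only [cost]
    rw [sum_insert hn]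
  have h3 : (insert (n + 1) s).filter (fun l' => n + 1 ≤ l') = insert (n + 1) s := by
    refine filter_true_of_mem fun l hl => ?_
    rcases mem_insert.1 hl with rfl | hl
    · exact le_rfl
    · exact (h l hl).le
  have h4 : ∑ l ∈ s, (∑ j ∈ Ico n l, S j + T * p l *
        (((insert (n + 1) s).filter (fun l' => l ≤ l')).card : ℝ)) = cost T p S n s := by
    simp only [cost]
    refine sum_congr rfl fun l hl => ?_
    have : (insert (n + 1) s).filter (fun l' => l ≤ l') = s.filter (fun l' => l ≤ l') := by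
      rw [filter_insert, if_neg]
      have := h l hl
      omega
    rw [this]
  rw [h2, h3, h4, h1, card_insert_of_notMem hn]
  simp only [Nat.Ico_succ_singleton, sum_singleton]
  push_cast
  ring

lemma VV_wait (n r : ℕ) : VV T p S n r ≤ r * S n + VV T p S (n + 1) r := by
  have h : VV T p S n r - r * S n ≤ VV T p S (n + 1) r := by
    refine le_VV _ _ _ fun s hs => ?_
    have h1 := VV_le hT hp hS n r s ⟨hs.1, fun l hl => by have := hs.2 l hl; omega⟩
    rw [cost_step n s fun l hl => by have := hs.2 l hl; omega, hs.1] at h1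
    linarith
  linarith

lemma VV_search (n r : ℕ) (hr : 1 ≤ r) :
    VV T p S n r ≤ r * S n + r * (T * p (n + 1)) + VV T p S (n + 1) (r - 1) := by
  have h : VV T p S n r - r * S n - r * (T * p (n + 1)) ≤ VV T p S (n + 1) (r - 1) := by
    refine le_VV _ _ _ fun s hs => ?_
    have hn : n + 1 ∉ s := fun hc => lt_irrefl _ (hs.2 _ hc)
    have h1 := VV_le hT hp hS n r (insert (n + 1) s) ⟨by
      rw [card_insert_of_notMem hn, hs.1]; omega, fun l hl => by
        rcases mem_insert.1 hl with rfl | hl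
        · exact Nat.lt_succ_self n
        · have := hs.2 l hl; omega⟩
    rw [cost_insert n s fun l hl => hs.2 l hl, hs.1] at h1
    have h2 : ((r - 1 : ℕ) : ℝ) + 1 = r := by
      rw [Nat.cast_sub hr]; simp
    rw [h2] at h1
    linarith
  linarith

lemma VV_bound (hanti : ∀ i j, i ≤ j → S j ≤ S i) (hps : ∀ n l, n < l → p l ≤ S n) (n r : ℕ)
    (hr : r ≤ 56) : VV T p S n r ≤ 56 * 56 * (1 + T) * S n := by
  refine (VV_le hT hp hS n r _ (adm_exists n r)).trans ?_
  have h1 : cost T p S n (Ioc n (n + r)) ≤ ∑ _l ∈ Ioc n (n + r), (56 * S n + T * S n * 56) := by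
    refine sum_le_sum fun l hl => ?_
    obtain ⟨hl1, hl2⟩ := mem_Ioc.1 hl
    refine add_le_add ?_ ?_
    · calc ∑ j ∈ Ico n l, S j ≤ ∑ _j ∈ Ico n l, S n :=
            sum_le_sum fun j hj => hanti _ _ (mem_Ico.1 hj).1
        _ = ((l - n : ℕ) : ℝ) * S n := by rw [sum_const, nsmul_eq_mul, Nat.card_Ico]
        _ ≤ 56 * S n := by
            refine mul_le_mul_of_nonneg_right ?_ (hS n)
            have : l - n ≤ 56 := by omega
            exact_mod_cast this
    · refine mul_le_mul (mul_le_mul_of_nonneg_left (hps n l hl1) hT) ?_ (Nat.cast_nonneg _)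
        (mul_nonneg hT (hS n))
      have : ((Ioc n (n + r)).filter (fun l' => l ≤ l')).card ≤ 56 :=
        (card_filter_le _ _).trans (by rw [Nat.card_Ioc]; omega)
      exact_mod_cast this
  refine h1.trans ?_
  rw [sum_const, nsmul_eq_mul, Nat.card_Ioc]
  have h2 : ((n + r - n : ℕ) : ℝ) ≤ 56 := by
    have : n + r - n ≤ 56 := by omega
    exact_mod_cast this
  have h3 : 0 ≤ 56 * S n + T * S n * 56 := by
    have := hS n
    have := mul_nonneg hT (hS n)
    linarith
  calc ((n + r - n : ℕ) : ℝ) * (56 * S n + T * S n * 56) ≤ 56 * (56 * S n + T * S n * 56) :=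
        mul_le_mul_of_nonneg_right h2 h3
    _ = 56 * 56 * (1 + T) * S n := by ring

end

/-! ### tails -/

lemma sum_ind {p : ℕ → ℝ} (hs : Summable p) (n : ℕ) :
    Summable fun i => if n < i then p i else 0 := by
  have := hs.indicator {i | n < i}
  refine this.congr fun i => ?_
  by_cases h : n < i
  · rw [Set.indicator_of_mem (show i ∈ {i | n < i} from h), if_pos h]
  · rw [Set.indicator_of_notMem (show i ∉ {i | n < i} from h), if_neg h]

lemma tail_eq {p : ℕ → ℝ} (hs : Summable p) (n : ℕ) :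
    tailS p n = ∑' i, if n < i then p i else 0 := by
  have hs' : Summable fun i => if n < i then p i else 0 := sum_ind hs n
  have h := hs'.sum_add_tsum_nat_add (n + 1)
  have h0 : ∑ i ∈ range (n + 1), (if n < i then p i else 0) = 0 := by
    refine sum_eq_zero fun i hi => ?_
    rw [if_neg]
    have := mem_range.1 hi
    omega
  rw [h0, zero_add] at h
  rw [← h, tailS]
  refine tsum_congr fun i => ?_
  rw [if_pos (by omega), show n + 1 + i = i + (n + 1) by ring]

lemma tail_nonneg {p : ℕ → ℝ} (hp : ∀ i, 0 ≤ p i) (n : ℕ) : 0 ≤ tailS p n :=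
  tsum_nonneg fun _ => hp _

lemma tail_anti {p : ℕ → ℝ} (hp : ∀ i, 0 ≤ p i) (hs : Summable p) (i j : ℕ) (h : i ≤ j) :
    tailS p j ≤ tailS p i := by
  rw [tail_eq hs, tail_eq hs]
  refine Summable.tsum_le_tsum (fun k => ?_) (sum_ind hs j) (sum_ind hs i)
  split_ifs with h1 h2
  · exact le_rfl
  · omega
  · exact hp k
  · exact le_rfl

lemma le_tail {p : ℕ → ℝ} (hp : ∀ i, 0 ≤ p i) (hs : Summable p) (n l : ℕ) (h : n < l) :
    p l ≤ tailS p n := by
  rw [tail_eq hs]
  have := (sum_ind hs n).le_tsum l (fun j _ => by split_ifs; exacts [hp j, le_rfl])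
  rwa [if_pos h] at this

lemma tsum_min {p : ℕ → ℝ} (hs : Summable p) (l : ℕ) :
    Summable (fun i => p i * (min l i : ℕ)) ∧
      ∑' i, p i * (min l i : ℕ) = ∑ j ∈ Ico 0 l, tailS p j := by
  have e : (fun i => p i * ((min l i : ℕ) : ℝ)) =
      fun i => ∑ j ∈ Ico 0 l, if j < i then p i else 0 := by
    funext i
    rw [← sum_filter, sum_const, nsmul_eq_mul, mul_comm]
    congr 2
    have : (Ico 0 l).filter (fun j => j < i) = Ico 0 (min l i) := by
      ext j
      simp only [mem_filter, mem_Ico, lt_min_iff]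
      tauto
    rw [this]
    simp
  have hs' : ∀ j ∈ Ico 0 l, Summable fun i => if j < i then p i else 0 := fun j _ => sum_ind hs j
  refine ⟨?_, ?_⟩
  · rw [e]
    exact summable_sum hs'
  · rw [e, Summable.tsum_finsetSum hs']
    exact sum_congr rfl fun j _ => (tail_eq hs j).symm

lemma pay_eq (T : ℝ) (s : Finset ℕ) (hs : IsStrategy 56 s) (i : ℕ) :
    56 * payoff 56 T s i = ∑ l ∈ s, ((min l i : ℕ) : ℝ) +
      (if i ∈ s then T * ((s.filter (fun l' => i ≤ l')).card : ℝ) else 0) := by
  have hc : ((s.filter (fun l' => i ≤ l')).card : ℝ) = 56 - (cnt s i : ℝ) := by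
    have h1 : (s.filter (fun j => j < i)).card + (s.filter (fun j => ¬ j < i)).card = s.card :=
      card_filter_add_card_filter_not _
    have h2 : s.filter (fun j => ¬ j < i) = s.filter (fun l' => i ≤ l') := by
      refine filter_congr fun j _ => ?_
      exact not_lt
    rw [h2, hs.1] at h1
    simp only [cnt]
    have : ((s.filter (fun j => j < i)).card : ℝ) + ((s.filter (fun l' => i ≤ l')).card : ℝ) = 56 := by
      exact_mod_cast h1
    linarith
  have hsum : ∑ l ∈ s, ((min l i : ℕ) : ℝ) = ∑ j ∈ s.filter (fun j => j < i), (j : ℝ) +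
      ((s.filter (fun l' => i ≤ l')).card : ℝ) * i := by
    rw [← sum_filter_add_sum_filter_not s (fun j => j < i)]
    have h2 : s.filter (fun j => ¬ j < i) = s.filter (fun l' => i ≤ l') := by
      refine filter_congr fun j _ => ?_
      exact not_lt
    rw [h2]
    congr 1
    · refine sum_congr rfl fun j hj => ?_
      rw [min_eq_left (mem_filter.1 hj).2.le]
    · rw [← nsmul_eq_mul, ← sum_const]
      refine sum_congr rfl fun j hj => ?_
      rw [min_eq_right (mem_filter.1 hj).2]
  rw [hsum, hc]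
  simp only [payoff]
  split_ifs
  · push_cast
    ring
  · push_cast
    ring

/-- VP -/
theorem vp : VpStmt := by
  intro T p q hE
  have hT : 0 ≤ T := hE.T_pos.le
  have hp := hE.p_nonneg
  have hs : Summable p := hE.p_sum.summable
  have hS : ∀ i, 0 ≤ tailS p i := tail_nonneg hp
  refine ⟨VV T p (tailS p), VV_zero hT hp hS, VV_nonneg hT hp hS,
    fun n r _ _ => VV_wait hT hp hS n r, fun n r h1 _ => VV_search hT hp hS n r h1, ?_,
    fun n r hr => VV_bound hT hp hS (tail_anti hp hs) (le_tail hp hs) n r hr⟩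
  refine le_VV 0 56 _ fun s hadm => ?_
  have hst : IsStrategy 56 s := ⟨hadm.1, fun l hl => hadm.2 l hl⟩
  have h1 := hE.searcher s hst
  -- 56 * expected payoff
  have e1 : ∀ i, 56 * (p i * payoff 56 T s i) = ∑ l ∈ s, p i * ((min l i : ℕ) : ℝ) +
      (if i ∈ s then T * p i * ((s.filter (fun l' => i ≤ l')).card : ℝ) else 0) := by
    intro i
    have := pay_eq T s hst i
    calc 56 * (p i * payoff 56 T s i) = p i * (56 * payoff 56 T s i) := by ring
      _ = _ := by
        rw [this, mul_add, mul_sum]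
        congr 1
        split_ifs
        · ring
        · ring
  have s1 : Summable fun i => ∑ l ∈ s, p i * ((min l i : ℕ) : ℝ) :=
    summable_sum fun l _ => (tsum_min hs l).1
  have s2 : HasSum (fun i => if i ∈ s then T * p i * ((s.filter (fun l' => i ≤ l')).card : ℝ) else 0)
      (∑ i ∈ s, T * p i * ((s.filter (fun l' => i ≤ l')).card : ℝ)) := by
    have : HasSum (fun i => if i ∈ s then T * p i * ((s.filter (fun l' => i ≤ l')).card : ℝ)
        else 0) (∑ i ∈ s, if i ∈ s then T * p i * ((s.filter (fun l' => i ≤ l')).card : ℝ)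
        else 0) := hasSum_sum_of_ne_finset_zero fun i hi => if_neg hi
    convert this using 1
    exact sum_congr rfl fun i hi => by rw [if_pos hi]
  have h2 : 56 * ∑' i, p i * payoff 56 T s i = cost T p (tailS p) 0 s := by
    rw [← tsum_mul_left]
    simp_rw [e1]
    rw [s1.tsum_add s2.summable, s2.tsum_eq, Summable.tsum_finsetSum fun l _ => (tsum_min hs l).1]
    simp only [cost]
    rw [sum_add_distrib]
    congr 1
    exact sum_congr rfl fun l _ => (tsum_min hs l).2
  rw [← h2]
  linarith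

end

end SA.H34
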